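import Mathlib
import Pool.Agent.BootPerc.Final

set_option autoImplicit false

namespace Pool.Agent.Results.MP_849d81_co.DensityTwoFifteenths

open Pool.Agent.BootPerc Filter Topology

/-- The largest minimal percolating sets of `[n]²` in 2-neighbour bootstrap percolation have
asymptotic density `2/15`: `c = lim E(n) / n² = 2/15`. -/
theorem result : Tendsto (fun n : ℕ => (maxMinPerc n n : ℝ) / (n : ℝ) ^ 2) atTop (𝓝 (2 / 15)) :=
  tendsto_density

end Pool.Agent.Results.MP_849d81_co.DensityTwoFifteenths
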